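import Mathlib
import Pool.Agent.Helper868.FTX.Main

set_option autoImplicit false

namespace Pool.Agent.Results.MP_bec39b_co.FullOrder

/-- For every `n ≥ 1` there is an admissible ordering (a list) of all subsets of an `n`-set. -/
theorem result (n : ℕ) (hn : 1 ≤ n) : ∃ L : List (Finset (Fin n)),
    L.Nodup ∧ (∀ S : Finset (Fin n), S ∈ L) ∧ L.length = 2 ^ n ∧ L.head? = some ∅ ∧
    (∀ (i : ℕ) (h : i + 1 < L.length),
      (L[i] ⊂ L[i + 1] ∨ L[i + 1] ⊂ L[i]) ∧ (symmDiff L[i] L[i + 1]).card = 1) ∧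
    (∀ (i j : ℕ) (hi : i < L.length) (hj : j < L.length), L[i] ⊆ L[j] → j < i → i = j + 1) := by
  obtain ⟨A, h0, h1, h2⟩ := Pool.Agent.Helper868.FTX.main n hn
  have hlen : (List.ofFn (fun i : Fin (2 ^ n) => A i)).length = 2 ^ n := List.length_ofFn
  refine ⟨List.ofFn (fun i => A i), ?_, ?_, hlen, ?_, ?_, ?_⟩
  · exact List.nodup_ofFn.2 A.injective
  · intro S
    rw [List.mem_ofFn]
    exact ⟨A.symm S, A.apply_symm_apply S⟩
  · have hpos : 0 < 2 ^ n := by positivity
    rw [List.head?_eq_getElem?, List.getElem?_ofFn]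
    simp only [hpos, dif_pos]
    congr 1
    exact h0 _ rfl
  · intro i h
    rw [List.length_ofFn] at h
    have := h1 ⟨i, by omega⟩ ⟨i + 1, h⟩ rfl
    simpa using this
  · intro i j hi hj hij hji
    rw [List.length_ofFn] at hi hj
    rw [List.getElem_ofFn, List.getElem_ofFn] at hij
    refine h2 ⟨i, hi⟩ ⟨j, hj⟩ ?_ hji
    refine lt_of_le_of_ne hij ?_
    intro he
    have := congrArg Fin.val (A.injective he)
    simp only at this
    omega

end Pool.Agent.Results.MP_bec39b_co.FullOrder
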